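import Pool.Agent.Helper50.HY.Stmts
import Pool.Agent.Helper7.PN.HLOC

/-! Sheet HY, row HLS: localized Hardy inequality with the sharp constant. -/

set_option autoImplicit false

namespace Pool.Agent.Helper1.HY

open MeasureTheory Filter Pool.Agent.Helper95 Pool.Agent.Helper95.PW Pool.Agent.Helper95.LN
open Pool.Agent.Helper50.HY

theorem HLS (hI : ST_IMS) (h1 : ST_HA3) : ST_HLS := by
  obtain ⟨C, hC, hI⟩ := hI
  refine ⟨C, hC, ?_⟩
  intro n M X d u hd hS hu
  have hw : ∀ (s : Fin n → Fin 2) (k : Fin n), ∃ w : Fin M → Cf n → ℝ,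
      (∀ j, ContDiff ℝ (⊤ : ℕ∞) (w j) ∧ HasCompactSupport (w j)) ∧
      (∀ j x, nr (x k - X j) < d → w j x = u s x) ∧
      ∑ j, ∫ x, ∑ i, dv k i (w j) x ^ 2 ≤
        (∫ x, ∑ i, dv k i (u s) x ^ 2) + C / d ^ 2 * ∫ x, u s x ^ 2 ∧
      ∑ j, ∫ x, w j x ^ 2 ≤ ∫ x, u s x ^ 2 := fun s k =>
    hI n M k X d (u s) hd hS (hu s).1 (hu s).2
  choose w w1 w2 w3 w4 using hw
  -- one nucleus, one electron
  obtain ⟨p, hp⟩ : ∃ p : (Fin n → Fin 2) → Fin n → Fin M → Cf n → ℝ, p = fun s k j x =>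
    Set.indicator {x : Cf n | nr (x k - X j) < d}
      (fun x => w s k j x ^ 2 / nr (x k - X j) ^ 2) x := ⟨_, rfl⟩
  have hmeas : ∀ (k : Fin n) (j : Fin M), MeasurableSet {x : Cf n | nr (x k - X j) < d} := by
    intro k j
    have : Continuous fun x : Cf n => nr (x k - X j) := hl_nrc.comp (by fun_prop)
    exact (isOpen_lt this continuous_const).measurableSet
  have hpi : ∀ s k j, Integrable (p s k j) := by
    intro s k j
    rw [hp]
    exact (h1 n k (X j) _ (w1 s k j).1 (w1 s k j).2).1.indicator (hmeas k j)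
  have hpe : ∀ s x, (∑ k, near2 X d (x k)) * u s x ^ 2 = ∑ k, ∑ j, p s k j x := by
    intro s x
    rw [Finset.sum_mul]
    refine Finset.sum_congr rfl fun k _ => ?_
    unfold near2
    rw [Finset.sum_mul]
    refine Finset.sum_congr rfl fun j _ => ?_
    rw [hp]
    simp only
    by_cases h : nr (x k - X j) < d
    · rw [if_pos h, Set.indicator_of_mem (show x ∈ {x : Cf n | nr (x k - X j) < d} from h),
        w2 s k j x h]
      ring
    · rw [if_neg h, Set.indicator_of_notMem (show x ∉ {x : Cf n | nr (x k - X j) < d} from h)]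
      ring
  have hpb : ∀ s k j, ∫ x, p s k j x ≤ 4 * ∫ x, ∑ i, dv k i (w s k j) x ^ 2 := by
    intro s k j
    obtain ⟨a1, a2⟩ := h1 n k (X j) _ (w1 s k j).1 (w1 s k j).2
    refine le_trans (integral_mono (hpi s k j) a1 fun x => ?_) a2
    rw [hp]
    exact Set.indicator_le_self' (fun _ _ => by positivity) x
  have hDi : ∀ s k i, Integrable (fun x => dv k i (u s) x ^ 2) := fun s k i =>
    hl_dvi k i (hu s).1 (hu s).2
  have hkk : ∀ s k, ∑ j, ∫ x, p s k j x ≤
      4 * (∑ i, ∫ x, dv k i (u s) x ^ 2) + 4 * (C / d ^ 2) * ∫ x, u s x ^ 2 := by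
    intro s k
    calc ∑ j, ∫ x, p s k j x ≤ ∑ j, 4 * ∫ x, ∑ i, dv k i (w s k j) x ^ 2 :=
          Finset.sum_le_sum fun j _ => hpb s k j
      _ = 4 * ∑ j, ∫ x, ∑ i, dv k i (w s k j) x ^ 2 := by rw [← Finset.mul_sum]
      _ ≤ 4 * ((∫ x, ∑ i, dv k i (u s) x ^ 2) + C / d ^ 2 * ∫ x, u s x ^ 2) :=
        mul_le_mul_of_nonneg_left (w3 s k) (by norm_num)
      _ = 4 * (∑ i, ∫ x, dv k i (u s) x ^ 2) + 4 * (C / d ^ 2) * ∫ x, u s x ^ 2 := by
        rw [integral_finsetSum _ fun i _ => hDi s k i]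
        ring
  have e1 : one (near2 X d) u = ∑ s, ∑ k, ∑ j, ∫ x, p s k j x := by
    unfold one
    refine Finset.sum_congr rfl fun s _ => ?_
    rw [integral_congr_ae (Eventually.of_forall fun x => hpe s x), integral_finsetSum]
    · refine Finset.sum_congr rfl fun k _ => ?_
      rw [integral_finsetSum]
      intro j _
      exact hpi s k j
    · intro k _
      exact integrable_finsetSum _ fun j _ => hpi s k j
  have e2 : ∑ s : Fin n → Fin 2, ∑ k : Fin n, (4 * (∑ i, ∫ x, dv k i (u s) x ^ 2) +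
      4 * (C / d ^ 2) * ∫ x, u s x ^ 2) = 4 * (kin u + C / d ^ 2 * (n * PW.sq u)) := by
    have e3 : kin u = ∑ s : Fin n → Fin 2, ∑ k : Fin n, ∑ i, ∫ x, dv k i (u s) x ^ 2 := by
      unfold kin PW.sq
      symm
      rw [Finset.sum_comm]
      refine Finset.sum_congr rfl fun k _ => ?_
      exact Finset.sum_comm
    rw [e3]
    unfold PW.sq
    simp only [Finset.sum_add_distrib, Finset.sum_const, Finset.card_univ, Fintype.card_fin,
      nsmul_eq_mul, ← Finset.mul_sum]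
    ring
  rw [e1]
  refine (Finset.sum_le_sum fun s _ => Finset.sum_le_sum fun k _ => hkk s k).trans (le_of_eq ?_)
  exact e2

end Pool.Agent.Helper1.HY
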